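import Pool.Agent.PDN.Stmts

/-!
# PDN, row SUF
-/

set_option autoImplicit false

namespace Pool.Agent.PDN.H9

theorem suf (gsu : GsuStmt) (sar : SarStmt) : SufStmt := by
  rintro n a hn ⟨S, hS⟩
  obtain ⟨y, e, hy, h⟩ := sar n a hn S hS
  have := gsu (2 * n) y e (by omega) hy
  rw [h] at this
  exact this

end Pool.Agent.PDN.H9
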